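import Pool.Agent.H13.LN.Targets

/-!
# Row XC: conjugation of a double point by a word without double points
-/

set_option autoImplicit false

open Finset

namespace Pool.Agent.H46.LNT

open Pool.Agent.H59.LIN Pool.Agent.H13.LN

namespace XCX

/-- `r` carries the double point `i` to the double point `j` -/
def G {n : ℕ} (i : Fin n) (r : Wd n) (j : Fin n) : Prop := Eqv ((i, true) :: r) (r ++ [(j, true)])

theorem eqv_refl {n : ℕ} (a : Wd n) : Eqv a a := Relation.EqvGen.refl a

theorem eqv_symm {n : ℕ} {a b : Wd n} (h : Eqv a b) : Eqv b a := Relation.EqvGen.symm _ _ h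

theorem eqv_trans {n : ℕ} {a b c : Wd n} (h : Eqv a b) (h' : Eqv b c) : Eqv a c :=
  Relation.EqvGen.trans _ _ _ h h'

theorem eqv_left (hEQC : T_EQC) {n : ℕ} (a : Wd n) {f f' : Wd n} (h : Eqv f f') :
    Eqv (a ++ f) (a ++ f') := by
  have := hEQC.1 n f f' a [] h
  simpa using this

theorem eqv_right (hEQC : T_EQC) {n : ℕ} (b : Wd n) {f f' : Wd n} (h : Eqv f f') :
    Eqv (f ++ b) (f' ++ b) := by
  have := hEQC.1 n f f' [] b h
  simpa using this

theorem G_nil {n : ℕ} (i : Fin n) : G i [] i := eqv_refl _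

theorem G_comp (hEQC : T_EQC) {n : ℕ} {i j k : Fin n} {r s : Wd n} (h : G i r j) (h' : G j s k) :
    G i (r ++ s) k := by
  have h1 := eqv_right hEQC s h
  have h2 := eqv_left hEQC r h'
  unfold G
  refine eqv_trans (b := r ++ ((j, true) :: s)) ?_ ?_
  · simpa using h1
  · simpa using h2

theorem nd_append {n : ℕ} (u v : Wd n) : nd (u ++ v) = nd u + nd v := by
  simp [nd, List.countP_append]

theorem nd_reverse {n : ℕ} (u : Wd n) : nd u.reverse = nd u := by
  simp [nd, List.countP_reverse]

theorem run_append (hRUN : T_RUN) {n : ℕ} (u v : Wd n) (p : Fin (n + 1)) :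
    run (u ++ v) p = run v (run u p) := hRUN.1 n Bool u v p

theorem run_rev (hRUN : T_RUN) {n : ℕ} : ∀ (r : Wd n) (p : Fin (n + 1)),
    run r.reverse (run r p) = p
  | [], p => rfl
  | x :: r, p => by
    rw [List.reverse_cons, run_append hRUN]
    show run [x] (run r.reverse (run r (tr x.1 p))) = p
    rw [run_rev hRUN r]
    show tr x.1 (tr x.1 p) = p
    simp [tr]

theorem run_rev' (hRUN : T_RUN) {n : ℕ} (r : Wd n) (p : Fin (n + 1)) :
    run r (run r.reverse p) = p := by
  have := run_rev hRUN r.reverse p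
  rwa [List.reverse_reverse] at this

theorem G_cox (hEQC : T_EQC) (hCOX : T_COX) {n : ℕ} {i j : Fin n} {r r' : Wd n} (h : G i r j)
    (hr : nd r = 0) (hr' : nd r' = 0) (he : run r = run r') : G i r' j := by
  have hE : Eqv r r' := hCOX n r r' hr hr' he
  have h1 : Eqv ((i, true) :: r) ((i, true) :: r') := by
    simpa using eqv_left hEQC [(i, true)] hE
  have h2 : Eqv (r ++ [(j, true)]) (r' ++ [(j, true)]) := eqv_right hEQC _ hE
  exact eqv_trans (eqv_symm h1) (eqv_trans h h2)

theorem G_inv (hRUN : T_RUN) (hEQC : T_EQC) (hCOX : T_COX) {n : ℕ} {i j : Fin n} {r : Wd n}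
    (h : G i r j) (hr : nd r = 0) : G j r.reverse i := by
  have e1 : Eqv (r.reverse ++ r) ([] : Wd n) := by
    refine hCOX n _ _ ?_ (by simp [nd]) ?_
    · rw [nd_append, nd_reverse, hr]
    · funext p
      rw [run_append hRUN, run_rev' hRUN]
      rfl
  have e2 : Eqv (r ++ r.reverse) ([] : Wd n) := by
    refine hCOX n _ _ ?_ (by simp [nd]) ?_
    · rw [nd_append, nd_reverse, hr]
    · funext p
      rw [run_append hRUN, run_rev hRUN]
      rfl
  unfold G
  -- `x_j r' ~ r' r x_j r' ~ r' x_i r r' ~ r' x_i`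
  have s1 : Eqv (r.reverse ++ r ++ ((j, true) :: r.reverse)) ((j, true) :: r.reverse) := by
    simpa using eqv_right hEQC ((j, true) :: r.reverse) e1
  have s2 : Eqv (r.reverse ++ ((i, true) :: r) ++ r.reverse)
      (r.reverse ++ (r ++ [(j, true)]) ++ r.reverse) := hEQC.1 n _ _ r.reverse r.reverse h
  have s3 : Eqv (r.reverse ++ [(i, true)] ++ (r ++ r.reverse)) (r.reverse ++ [(i, true)] ++ []) :=
    eqv_left hEQC _ e2
  refine eqv_trans (eqv_symm s1) (eqv_trans (b := r.reverse ++ ((i, true) :: r) ++ r.reverse) ?_ ?_)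
  · simpa using eqv_symm s2
  · simpa using s3

/-- the words `r_k` -/
theorem base (hRUN : T_RUN) (hEQC : T_EQC) {m : ℕ} : ∀ (k : ℕ) (hk : k < m + 1), ∃ r : Wd (m + 1),
    nd r = 0 ∧ run r (Fin.castSucc (0 : Fin (m + 1))) = (⟨k, hk⟩ : Fin (m + 1)).castSucc ∧
      run r (Fin.succ (0 : Fin (m + 1))) = (⟨k, hk⟩ : Fin (m + 1)).succ ∧
      G (0 : Fin (m + 1)) r ⟨k, hk⟩
  | 0, hk => ⟨[], by simp [nd], rfl, rfl, G_nil _⟩
  | k + 1, hk => by
    have hk' : k < m + 1 := by omega
    obtain ⟨r, h0, h1, h2, h3⟩ := base hRUN hEQC (m := m) k hk'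
    refine ⟨r ++ [(⟨k + 1, hk⟩, false), (⟨k, hk'⟩, false)], ?_, ?_, ?_, ?_⟩
    · rw [nd_append, h0]
      simp [nd]
    · rw [run_append hRUN, h1]
      show tr (⟨k, hk'⟩ : Fin (m + 1)) (tr (⟨k + 1, hk⟩ : Fin (m + 1))
        (⟨k, hk'⟩ : Fin (m + 1)).castSucc) = _
      have a1 : tr (⟨k + 1, hk⟩ : Fin (m + 1)) (⟨k, hk'⟩ : Fin (m + 1)).castSucc =
          (⟨k, hk'⟩ : Fin (m + 1)).castSucc := by
        refine Equiv.swap_apply_of_ne_of_ne ?_ ?_ <;> simp [Fin.ext_iff]
        omega
      rw [a1]
      have a2 : tr (⟨k, hk'⟩ : Fin (m + 1)) (⟨k, hk'⟩ : Fin (m + 1)).castSucc =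
          (⟨k, hk'⟩ : Fin (m + 1)).succ := Equiv.swap_apply_left _ _
      rw [a2]
      simp [Fin.ext_iff]
    · rw [run_append hRUN, h2]
      show tr (⟨k, hk'⟩ : Fin (m + 1)) (tr (⟨k + 1, hk⟩ : Fin (m + 1))
        (⟨k, hk'⟩ : Fin (m + 1)).succ) = _
      have a0 : (⟨k, hk'⟩ : Fin (m + 1)).succ = (⟨k + 1, hk⟩ : Fin (m + 1)).castSucc := by
        simp [Fin.ext_iff]
      rw [a0]
      have a1 : tr (⟨k + 1, hk⟩ : Fin (m + 1)) (⟨k + 1, hk⟩ : Fin (m + 1)).castSucc =
          (⟨k + 1, hk⟩ : Fin (m + 1)).succ := Equiv.swap_apply_left _ _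
      rw [a1]
      refine Equiv.swap_apply_of_ne_of_ne ?_ ?_ <;> simp [Fin.ext_iff]
      omega
    · refine G_comp hEQC h3 ?_
      unfold G
      refine eqv_symm (Relation.EqvGen.rel _ _ ?_)
      have := St.ssx' (n := m + 1) [] [] (⟨k, hk'⟩) (⟨k + 1, hk⟩) rfl
      simpa using this

/-- letters far from the first double point -/
theorem comm_far (hEQC : T_EQC) {l : ℕ} : ∀ w : Wd l,
    G (0 : Fin (l + 2)) (w.map fun x => (x.1.succ.succ, x.2)) (0 : Fin (l + 2))
  | [] => G_nil _
  | x :: w => by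
    have h := comm_far hEQC w
    have h1 : G (0 : Fin (l + 2)) [(x.1.succ.succ, x.2)] (0 : Fin (l + 2)) := by
      unfold G
      refine Relation.EqvGen.rel _ _ ?_
      have := St.far (n := l + 2) [] [] 0 x.1.succ.succ true x.2 (by simp)
      simpa using this
    have := G_comp hEQC h1 h
    simpa using this

theorem run_shift {l : ℕ} : ∀ (w : Wd l) (p : Fin (l + 1)),
    run (n := l + 2) (w.map fun x => (x.1.succ.succ, x.2)) p.succ.succ = (run w p).succ.succ
  | [], p => rfl
  | x :: w, p => by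
    show run (w.map fun x => ((x.1.succ.succ : Fin (l + 2)), x.2))
      (tr (x.1.succ.succ : Fin (l + 2)) p.succ.succ) = (run w (tr x.1 p)).succ.succ
    rw [← run_shift w (tr x.1 p)]
    congr 1
    unfold tr
    rcases eq_or_ne p x.1.castSucc with h | h
    · rw [h, Equiv.swap_apply_left]
      have : (x.1.castSucc.succ.succ : Fin (l + 3)) = (x.1.succ.succ : Fin (l + 2)).castSucc := by
        simp [Fin.ext_iff]
      rw [this, Equiv.swap_apply_left]
    · rcases eq_or_ne p x.1.succ with h' | h'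
      · rw [h', Equiv.swap_apply_right, Equiv.swap_apply_right]
        simp [Fin.ext_iff]
      · rw [Equiv.swap_apply_of_ne_of_ne h h', Equiv.swap_apply_of_ne_of_ne]
        · intro hh
          apply h
          simp only [Fin.ext_iff, Fin.val_succ, Fin.val_castSucc] at hh ⊢
          omega
        · intro hh
          apply h'
          simp only [Fin.ext_iff, Fin.val_succ, Fin.val_castSucc] at hh ⊢
          omega

theorem run_shift_small {l : ℕ} : ∀ (w : Wd l) (q : Fin (l + 3)), (q : ℕ) < 2 →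
    run (n := l + 2) (w.map fun x => (x.1.succ.succ, x.2)) q = q
  | [], q, _ => rfl
  | x :: w, q, hq => by
    show run (w.map fun x => ((x.1.succ.succ : Fin (l + 2)), x.2))
      (tr (x.1.succ.succ : Fin (l + 2)) q) = q
    have : tr (x.1.succ.succ : Fin (l + 2)) q = q := by
      refine Equiv.swap_apply_of_ne_of_ne ?_ ?_
      · intro hh
        simp only [Fin.ext_iff, Fin.val_succ, Fin.val_castSucc] at hh
        omega
      · intro hh
        simp only [Fin.ext_iff, Fin.val_succ] at hh
        omega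
    rw [this]
    exact run_shift_small w q hq

theorem nd_shift {l : ℕ} (w : Wd l) :
    nd (n := l + 2) (w.map fun x => (x.1.succ.succ, x.2)) = nd w := by
  unfold nd
  rw [List.countP_map]
  rfl

/-- words which fix the first two strands -/
theorem fixed (hRUN : T_RUN) (hEQC : T_EQC) (hSUR : T_SUR) (hCOX : T_COX) {m : ℕ} (t : Wd (m + 1))
    (ht : nd t = 0) (h0 : run t (Fin.castSucc (0 : Fin (m + 1))) = Fin.castSucc 0)
    (h1 : run t (Fin.succ (0 : Fin (m + 1))) = Fin.succ 0) : G 0 t 0 := by
  rcases m with _ | l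
  · refine G_cox hEQC hCOX (G_nil 0) (by simp [nd]) ht ?_
    funext p
    have hp : p = Fin.castSucc 0 ∨ p = Fin.succ 0 := by
      rcases p with ⟨p, hp⟩
      have : p = 0 ∨ p = 1 := by omega
      rcases this with rfl | rfl
      · left; rfl
      · right; rfl
    rcases hp with rfl | rfl
    · exact h0.symm
    · exact h1.symm
  · have hbij : Function.Bijective (run t) := hRUN.2.1 (l + 2) Bool t
    have hex : ∀ p : Fin (l + 1), ∃ q : Fin (l + 1), run t p.succ.succ = q.succ.succ := by
      intro p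
      have n0 : run t p.succ.succ ≠ Fin.castSucc 0 := by
        intro h
        have := congrArg Fin.val (hbij.1 (h.trans h0.symm))
        simp only [Fin.val_succ, Fin.val_castSucc, Fin.val_zero] at this
        omega
      have n1 : run t p.succ.succ ≠ Fin.succ 0 := by
        intro h
        have := congrArg Fin.val (hbij.1 (h.trans h1.symm))
        simp only [Fin.val_succ, Fin.val_zero] at this
        omega
      have hlt := (run t p.succ.succ).2
      have n0' : (run t p.succ.succ : ℕ) ≠ 0 := by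
        intro h
        exact n0 (Fin.ext (by simpa using h))
      have n1' : (run t p.succ.succ : ℕ) ≠ 1 := by
        intro h
        exact n1 (Fin.ext (by simpa using h))
      refine ⟨⟨(run t p.succ.succ : ℕ) - 2, by omega⟩, ?_⟩
      apply Fin.ext
      simp only [Fin.val_succ]
      omega
    choose f hf using hex
    have finj : Function.Injective f := by
      intro p q hpq
      have : run t p.succ.succ = run t q.succ.succ := by rw [hf, hf, hpq]
      have := hbij.1 this
      exact Fin.succ_injective _ (Fin.succ_injective _ this)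
    obtain ⟨w, hw0, hw⟩ := hSUR l (Equiv.ofBijective f (Finite.injective_iff_bijective.mp finj))
    have hw' : ∀ p, run w p = f p := fun p => by rw [hw p]; rfl
    refine G_cox hEQC hCOX (comm_far hEQC w) (by rw [nd_shift]; exact hw0) ht ?_
    funext q
    by_cases hq : (q : ℕ) < 2
    · rw [run_shift_small w q hq]
      have : q = Fin.castSucc 0 ∨ q = Fin.succ 0 := by
        rcases q with ⟨q, hq'⟩
        simp only at hq
        have : q = 0 ∨ q = 1 := by omega
        rcases this with rfl | rfl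
        · left; rfl
        · right; rfl
      rcases this with rfl | rfl
      · exact h0.symm
      · exact h1.symm
    · have hlt := q.2
      have : q = (⟨(q : ℕ) - 2, by omega⟩ : Fin (l + 1)).succ.succ := by
        apply Fin.ext
        simp only [Fin.val_succ]
        omega
      rw [this, run_shift, hf, hw']

end XCX

open XCX

theorem xc (hRUN : T_RUN) (hEQC : T_EQC) (hSUR : T_SUR) (hCOX : T_COX) : T_XC := by
  intro n r i j hr h1 h2
  rcases n with _ | m
  · exact i.elim0
  obtain ⟨a, ha0, ha1, ha2, ha3⟩ := base hRUN hEQC (m := m) i i.2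
  obtain ⟨b, hb0, hb1, hb2, hb3⟩ := base hRUN hEQC (m := m) j j.2
  change run a _ = i.castSucc at ha1
  change run a _ = i.succ at ha2
  change G 0 a i at ha3
  change run b _ = j.castSucc at hb1
  change run b _ = j.succ at hb2
  change G 0 b j at hb3
  have ht : G (0 : Fin (m + 1)) (a ++ (r ++ b.reverse)) 0 := by
    refine fixed hRUN hEQC hSUR hCOX _ ?_ ?_ ?_
    · rw [nd_append, nd_append, nd_reverse, ha0, hr, hb0]
    · rw [run_append hRUN, run_append hRUN, ha1, h1, ← hb1, run_rev hRUN]
    · rw [run_append hRUN, run_append hRUN, ha2, h2, ← hb2, run_rev hRUN]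
  have hG := G_comp hEQC (G_comp hEQC (G_inv hRUN hEQC hCOX ha3 ha0) ht) hb3
  refine G_cox hEQC hCOX hG ?_ hr ?_
  · rw [nd_append, nd_append, nd_append, nd_append, nd_reverse, nd_reverse, ha0, hr, hb0]
  · funext p
    rw [run_append hRUN, run_append hRUN, run_append hRUN, run_append hRUN, run_rev' hRUN,
      run_rev' hRUN]

end Pool.Agent.H46.LNT
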